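import Pool.Agent.Helper42.RZ2.Basic

/-! # RZ2-R5: independent cells, general kernel -/

set_option autoImplicit false

open MeasureTheory Set Metric Filter Topology
open scoped ENNReal

namespace Pool.Agent.Helper67.RZ2

open Pool.Agent.Helper42.RZ Pool.Agent.Helper42.RZ2

/-! ## The kernel -/

section kernel

variable {X : Type} [MeasurableSpace X]

/-- the kernel with values in `ℝ≥0∞` -/
noncomputable def kk (k : X → X → ℝ) (a b : X) : ℝ≥0∞ := ENNReal.ofReal (k a b)

theorem measurable_kk {k : X → X → ℝ} (hk : Measurable fun q : X × X => k q.1 q.2) :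
    Measurable (fun p : X × X => kk k p.1 p.2) := by
  unfold kk
  exact ENNReal.measurable_ofReal.comp hk

theorem measurable_kk_right {k : X → X → ℝ} (hk : Measurable fun q : X × X => k q.1 q.2) (x : X) :
    Measurable (fun z => kk k x z) :=
  (measurable_kk hk).comp (measurable_const.prodMk measurable_id)

theorem measurable_lintegral_kk {k : X → X → ℝ} (hk : Measurable fun q : X × X => k q.1 q.2)
    (ν : Measure X) [SFinite ν] : Measurable (fun x => ∫⁻ z, kk k x z ∂ν) :=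
  Measurable.lintegral_prod_right (f := fun a b : X => kk k a b) (measurable_kk hk)

theorem lintegral_lintegral_kk (τ : Measure X) [IsProbabilityMeasure τ] {k : X → X → ℝ}
    (hk : Measurable fun q : X × X => k q.1 q.2) (hk0 : ∀ x z, 0 ≤ k x z)
    (hki : Integrable (fun q : X × X => k q.1 q.2) (τ.prod τ)) :
    ∫⁻ x, ∫⁻ y, kk k x y ∂τ ∂τ = ENNReal.ofReal (∫ q, k q.1 q.2 ∂(τ.prod τ)) := by
  rw [ofReal_integral_eq_lintegral_ofReal hki (Eventually.of_forall fun q => hk0 _ _)]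
  exact (lintegral_prod (fun q : X × X => kk k q.1 q.2) (measurable_kk hk).aemeasurable).symm

theorem lintegral_fin (τ : Measure X) [IsProbabilityMeasure τ] {k : X → X → ℝ}
    (hk : Measurable fun q : X × X => k q.1 q.2) (hk0 : ∀ x z, 0 ≤ k x z)
    (hki : Integrable (fun q : X × X => k q.1 q.2) (τ.prod τ)) :
    ∀ᵐ x ∂τ, ∫⁻ y, kk k x y ∂τ < ∞ := by
  refine ae_lt_top (measurable_lintegral_kk hk τ) ?_
  rw [lintegral_lintegral_kk τ hk hk0 hki]
  exact ENNReal.ofReal_ne_top

/-- the double Bochner integral over a cell -/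
theorem integral_cell (τ : Measure X) [IsProbabilityMeasure τ] {k : X → X → ℝ}
    (hk : Measurable fun q : X × X => k q.1 q.2) (hk0 : ∀ x z, 0 ≤ k x z)
    (hki : Integrable (fun q : X × X => k q.1 q.2) (τ.prod τ)) (C : Set X) :
    ∫ x in C, ∫ z in C, k x z ∂τ ∂τ =
      (∫⁻ x in C, ∫⁻ z in C, kk k x z ∂τ ∂τ).toReal := by
  have hm : Measurable (fun x => ∫⁻ z in C, kk k x z ∂τ) := measurable_lintegral_kk hk _
  have h1 : ∀ x, ∫ z in C, k x z ∂τ = (∫⁻ z in C, kk k x z ∂τ).toReal := by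
    intro x
    rw [integral_eq_lintegral_of_nonneg_ae]
    · rfl
    · exact Eventually.of_forall fun y => hk0 _ _
    · exact (hk.comp (measurable_const.prodMk measurable_id)).aestronglyMeasurable
  simp only [h1]
  rw [integral_toReal hm.aemeasurable]
  refine ae_restrict_of_ae ?_
  filter_upwards [lintegral_fin τ hk hk0 hki] with x hx
  exact lt_of_le_of_lt (setLIntegral_le_lintegral _ _) hx

/-! ## Sums of measures -/

theorem sum_restrict {ι : Type} [Fintype ι] (τ : Measure X) [IsProbabilityMeasure τ]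
    (C : ι → Set X) (hC : ∀ l, MeasurableSet (C l))
    (hdisj : ∀ l l', l ≠ l' → Disjoint (C l) (C l')) (hfull : ∑ l, τ.real (C l) = 1) :
    ∑ l, τ.restrict (C l) = τ := by
  have h1 : τ (⋃ l, C l) = 1 := by
    rw [measure_iUnion (fun l l' h => hdisj l l' h) hC, tsum_fintype]
    have h2 : ∀ l, τ (C l) = ENNReal.ofReal (τ.real (C l)) := fun l => by
      rw [Measure.real, ENNReal.ofReal_toReal (measure_ne_top _ _)]
    simp only [h2]
    rw [← ENNReal.ofReal_sum_of_nonneg (fun l _ => measureReal_nonneg), hfull, ENNReal.ofReal_one]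
  have h3 : τ.restrict (⋃ l, C l) = τ := by
    refine Measure.restrict_eq_self_of_ae_mem ?_
    have h4 : τ (⋃ l, C l)ᶜ = 0 := by
      rw [prob_compl_eq_zero_iff (MeasurableSet.iUnion hC)]
      exact h1
    exact h4
  have h5 : τ.restrict (⋃ l, C l) = Measure.sum fun l => τ.restrict (C l) :=
    Measure.restrict_iUnion (fun l l' h => hdisj l l' h) hC
  rw [← Measure.sum_fintype, ← h5, h3]

theorem sum_map {Ω : Type} [MeasurableSpace Ω] (τ : Measure X) [IsProbabilityMeasure τ]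
    (P : Measure Ω) [IsProbabilityMeasure P] (n : ℕ)
    (y : Fin n → Ω → X) (A : Fin n → Set Ω) (C : Set X) (N₁ : ℕ)
    (hy : ∀ i, Measurable (y i))
    (hmean : ∀ (B : Set X), MeasurableSet B →
      ∑ i, P.real (A i ∩ y i ⁻¹' B) = N₁ * τ.real (B ∩ C)) :
    ∑ i, (P.restrict (A i)).map (y i) = (N₁ : ℝ≥0∞) • τ.restrict C := by
  ext B hB
  rw [Measure.finsetSum_apply, Measure.smul_apply, Measure.restrict_apply hB, smul_eq_mul]
  have h1 : ∀ i, ((P.restrict (A i)).map (y i)) B = ENNReal.ofReal (P.real (A i ∩ y i ⁻¹' B)) := by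
    intro i
    rw [Measure.map_apply (hy i) hB, Measure.restrict_apply (hy i hB), Set.inter_comm,
      Measure.real, ENNReal.ofReal_toReal (measure_ne_top _ _)]
  simp only [h1]
  rw [← ENNReal.ofReal_sum_of_nonneg (fun l _ => measureReal_nonneg), hmean B hB,
    ENNReal.ofReal_mul (by positivity), ENNReal.ofReal_natCast, Measure.real,
    ENNReal.ofReal_toReal (measure_ne_top _ _)]

end kernel

/-! ## The pointwise inequality -/

theorem offDiag_enum {X : Type} {α : Type} [DecidableEq α] (k : X → X → ℝ) (Y : α → X)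
    (T : Finset α) (C : X → Prop) (a b : ℝ)
    (hY : ∀ a ∈ T, ∀ b ∈ T, Y a = Y b → a = b) (h1 : ∀ a ∈ T, C (Y a))
    (hΦ : ∀ (N' : ℕ) (z : Fin N' → X), Function.Injective z → (∀ i, C (z i)) →
      a + b * N' ≤ ∑ p ∈ (Finset.univ : Finset (Fin N')).offDiag, k (z p.1) (z p.2)) :
    a + b * T.card ≤ ∑ q ∈ T.offDiag, k (Y q.1) (Y q.2) := by
  set e : Fin T.card ≃ T := T.equivFin.symm with he
  have h3 := hΦ T.card (fun i : Fin T.card => Y (e i)) (by
    intro i j hij
    exact e.injective (Subtype.ext (hY _ (e i).2 _ (e j).2 hij))) (fun i => h1 _ (e i).2)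
  refine h3.trans (le_of_eq ?_)
  refine Finset.sum_bij (fun p _ => ((e p.1 : α), (e p.2 : α))) ?_ ?_ ?_ ?_
  · rintro ⟨i, j⟩ hp
    rw [Finset.mem_offDiag] at hp
    rw [Finset.mem_offDiag]
    exact ⟨(e i).2, (e j).2, fun h => hp.2.2 (e.injective (Subtype.ext h))⟩
  · rintro ⟨i, j⟩ _ ⟨i', j'⟩ _ h
    rw [Prod.mk.injEq] at h
    exact Prod.ext (e.injective (Subtype.ext h.1)) (e.injective (Subtype.ext h.2))
  · rintro ⟨a, b⟩ hq
    rw [Finset.mem_offDiag] at hq
    refine ⟨(e.symm ⟨a, hq.1⟩, e.symm ⟨b, hq.2.1⟩), ?_, ?_⟩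
    · rw [Finset.mem_offDiag]
      refine ⟨Finset.mem_univ _, Finset.mem_univ _, fun h => hq.2.2 ?_⟩
      exact congrArg Subtype.val (e.symm.injective h)
    · simp
  · rintro ⟨i, j⟩ _
    rfl

/-! ## Integrals over the product space -/

theorem lintegral_one {ι Ω : Type} [Fintype ι] [MeasurableSpace Ω] (P : Measure Ω)
    [IsProbabilityMeasure P] (l : ι) {f : Ω → ℝ≥0∞} (hf : Measurable f) :
    ∫⁻ ω, f (ω l) ∂(Measure.pi fun _ : ι => P) = ∫⁻ a, f a ∂P :=
  (measurePreserving_eval (fun _ : ι => P) l).lintegral_comp hf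

theorem lintegral_two {ι Ω : Type} [Fintype ι] [MeasurableSpace Ω] (P : Measure Ω)
    [IsProbabilityMeasure P] {l l' : ι} (h : l ≠ l') {f : Ω × Ω → ℝ≥0∞} (hf : Measurable f) :
    ∫⁻ ω, f (ω l, ω l') ∂(Measure.pi fun _ : ι => P) = ∫⁻ a, ∫⁻ b, f (a, b) ∂P ∂P := by
  have hi : ProbabilityTheory.iIndepFun (fun (i : ι) (ω : ι → Ω) => ω i)
      (Measure.pi fun _ : ι => P) :=
    ProbabilityTheory.iIndepFun_pi (X := fun (_ : ι) (a : Ω) => a) (fun i => aemeasurable_id)
  have h2 := hi.indepFun h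
  have h3 := (ProbabilityTheory.indepFun_iff_map_prod_eq_prod_map_map
    (measurable_pi_apply l).aemeasurable (measurable_pi_apply l').aemeasurable).1 h2
  have h4 : ∀ i : ι, Measure.map (fun ω : ι → Ω => ω i) (Measure.pi fun _ : ι => P) = P :=
    fun i => (measurePreserving_eval (fun _ : ι => P) i).map_eq
  rw [h4, h4] at h3
  rw [← lintegral_prod _ hf.aemeasurable, ← h3, lintegral_map hf]
  exact (measurable_pi_apply l).prodMk (measurable_pi_apply l')

/-- two cells: the mean measures multiply -/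
theorem cross {X : Type} [MeasurableSpace X] (τ : Measure X) [IsProbabilityMeasure τ]
    {k : X → X → ℝ} (hk : Measurable fun q : X × X => k q.1 q.2)
    {Ω : Type} [MeasurableSpace Ω] (P : Measure Ω) [IsProbabilityMeasure P]
    (n : ℕ) (y y' : Fin n → Ω → X) (A A' : Fin n → Set Ω) (C C' : Set X) (N₁ : ℕ)
    (hy : ∀ i, Measurable (y i)) (hy' : ∀ i, Measurable (y' i))
    (hA : ∀ i, MeasurableSet (A i)) (hA' : ∀ i, MeasurableSet (A' i))
    (hmean : ∑ i, (P.restrict (A i)).map (y i) = (N₁ : ℝ≥0∞) • τ.restrict C)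
    (hmean' : ∑ i, (P.restrict (A' i)).map (y' i) = (N₁ : ℝ≥0∞) • τ.restrict C') :
    ∑ i, ∑ j, ∫⁻ a, ∫⁻ b, (A i ×ˢ A' j).indicator (fun q : Ω × Ω => kk k (y i q.1) (y' j q.2))
      (a, b) ∂P ∂P = (N₁ : ℝ≥0∞) ^ 2 * ∫⁻ x in C, ∫⁻ z in C', kk k x z ∂τ ∂τ := by
  have h1 : ∀ i j, ∫⁻ a, ∫⁻ b, (A i ×ˢ A' j).indicator
      (fun q : Ω × Ω => kk k (y i q.1) (y' j q.2)) (a, b) ∂P ∂P =
      ∫⁻ x, ∫⁻ z, kk k x z ∂((P.restrict (A' j)).map (y' j)) ∂((P.restrict (A i)).map (y i)) := by
    intro i j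
    have hk1 : ∀ x, Measurable (fun z => kk k x z) := measurable_kk_right hk
    have hk2 : Measurable (fun x => ∫⁻ z, kk k x z ∂((P.restrict (A' j)).map (y' j))) :=
      measurable_lintegral_kk hk _
    rw [lintegral_map hk2 (hy i), ← lintegral_indicator (hA i)]
    refine lintegral_congr fun a => ?_
    by_cases ha : a ∈ A i
    · rw [Set.indicator_of_mem ha, lintegral_map (hk1 _) (hy' j), ← lintegral_indicator (hA' j)]
      refine lintegral_congr fun b => ?_
      by_cases hb : b ∈ A' j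
      · rw [Set.indicator_of_mem hb, Set.indicator_of_mem (show (a, b) ∈ A i ×ˢ A' j from ⟨ha, hb⟩)]
      · rw [Set.indicator_of_notMem hb, Set.indicator_of_notMem (fun h => hb h.2)]
    · rw [Set.indicator_of_notMem ha]
      have : ∀ b, (A i ×ˢ A' j).indicator
          (fun q : Ω × Ω => kk k (y i q.1) (y' j q.2)) (a, b) = 0 := fun b =>
        Set.indicator_of_notMem (fun h => ha h.1) _
      simp only [this, lintegral_zero]
  simp only [h1]
  have h2 : ∀ (μ : Measure X), ∑ j, ∫⁻ x, ∫⁻ z, kk k x z ∂((P.restrict (A' j)).map (y' j)) ∂μ =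
      ∫⁻ x, ∫⁻ z, kk k x z ∂((N₁ : ℝ≥0∞) • τ.restrict C') ∂μ := by
    intro μ
    rw [← lintegral_finsetSum]
    · refine lintegral_congr fun x => ?_
      rw [← hmean', lintegral_finsetSum_measure]
    · intro j _
      exact measurable_lintegral_kk hk _
  simp only [h2]
  rw [← lintegral_finsetSum_measure, hmean, lintegral_smul_measure]
  simp only [lintegral_smul_measure, smul_eq_mul]
  rw [lintegral_const_mul _ (measurable_lintegral_kk hk _), ← mul_assoc, sq]

/-! ## Sums -/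

theorem sum_offDiag_eq {α : Type} [Fintype α] [DecidableEq α] {M : Type} [AddCommMonoid M]
    (f : α → α → M) : ∑ q ∈ (Finset.univ : Finset α).offDiag, f q.1 q.2 =
      ∑ a, ∑ b, if a ≠ b then f a b else 0 := by
  rw [← Fintype.sum_prod_type' (f := fun a b => if a ≠ b then f a b else 0), ← Finset.sum_filter]
  refine Finset.sum_congr ?_ fun _ _ => rfl
  ext q
  simp [Finset.mem_offDiag]

theorem sum_cells {ι : Type} [Fintype ι] [DecidableEq ι] (n : ℕ)
    (φ : ι × Fin n → ι × Fin n → ℝ≥0∞) (I : ι → ι → ℝ≥0∞)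
    (h : ∀ l l', l ≠ l' → ∑ i, ∑ j, φ (l, i) (l', j) = I l l') :
    ∑ q ∈ (Finset.univ : Finset (ι × Fin n)).offDiag, φ q.1 q.2 + ∑ l, I l l =
      ∑ l, ∑ q ∈ (Finset.univ : Finset (Fin n)).offDiag, φ (l, q.1) (l, q.2) +
        ∑ l, ∑ l', I l l' := by
  have h1 : ∑ q ∈ (Finset.univ : Finset (ι × Fin n)).offDiag, φ q.1 q.2 =
      ∑ l, ∑ l', ∑ i, ∑ j, if ((l, i) : ι × Fin n) ≠ (l', j) then φ (l, i) (l', j) else 0 := by
    rw [sum_offDiag_eq, Fintype.sum_prod_type]
    refine Finset.sum_congr rfl fun l _ => ?_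
    rw [Finset.sum_comm' (t' := Finset.univ) (s' := fun _ => Finset.univ) (by simp)]
    rw [Fintype.sum_prod_type]
    refine Finset.sum_congr rfl fun l' _ => ?_
    rw [Finset.sum_comm]
  rw [h1, ← Finset.sum_add_distrib, ← Finset.sum_add_distrib]
  refine Finset.sum_congr rfl fun l _ => ?_
  rw [← Finset.add_sum_erase _ _ (Finset.mem_univ l), ← Finset.add_sum_erase (a := l)
    (f := fun l' => I l l') _ (Finset.mem_univ l)]
  have h2 : ∑ i, ∑ j, (if ((l, i) : ι × Fin n) ≠ (l, j) then φ (l, i) (l, j) else 0) =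
      ∑ q ∈ (Finset.univ : Finset (Fin n)).offDiag, φ (l, q.1) (l, q.2) := by
    rw [sum_offDiag_eq (fun i j => φ (l, i) (l, j))]
    refine Finset.sum_congr rfl fun i _ => Finset.sum_congr rfl fun j _ => ?_
    simp
  have h3 : ∑ l' ∈ Finset.univ.erase l, ∑ i, ∑ j,
      (if ((l, i) : ι × Fin n) ≠ (l', j) then φ (l, i) (l', j) else 0) =
      ∑ l' ∈ Finset.univ.erase l, I l l' := by
    refine Finset.sum_congr rfl fun l' hl' => ?_
    have hne : l ≠ l' := (Finset.ne_of_mem_erase hl').symm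
    rw [← h l l' hne]
    refine Finset.sum_congr rfl fun i _ => Finset.sum_congr rfl fun j _ => ?_
    rw [if_pos]
    intro hh
    exact hne (congrArg Prod.fst hh)
  rw [h2, h3]
  ring

theorem paste_gen {X ι Ω : Type} [MeasurableSpace X] [Fintype ι] [MeasurableSpace Ω]
    (τ : Measure X) [IsProbabilityMeasure τ] (P : Measure Ω) [IsProbabilityMeasure P]
    (k : X → X → ℝ) (hk : Measurable fun q : X × X => k q.1 q.2) (hk0 : ∀ x z, 0 ≤ k x z)
    (hki : Integrable (fun q : X × X => k q.1 q.2) (τ.prod τ)) (n : ℕ) (y : ι → Fin n → Ω → X)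
    (A : ι → Fin n → Set Ω) (C : ι → Set X) (N₁ : ℕ)
    (hy : ∀ l i, Measurable (y l i)) (hA : ∀ l i, MeasurableSet (A l i))
    (hC : ∀ l, MeasurableSet (C l)) (hdisj : ∀ l l', l ≠ l' → Disjoint (C l) (C l'))
    (hmem : ∀ l i ω, ω ∈ A l i → y l i ω ∈ C l)
    (hinj : ∀ l i j, i ≠ j → ∀ ω ∈ A l i ∩ A l j, y l i ω ≠ y l j ω)
    (hbd : ∃ B : ℝ, ∀ l i j, i ≠ j → ∀ ω ∈ A l i ∩ A l j, k (y l i ω) (y l j ω) ≤ B)
    (hmean : ∀ l (B : Set X), MeasurableSet B →
      ∑ i, P.real (A l i ∩ y l i ⁻¹' B) = N₁ * τ.real (B ∩ C l))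
    (hfull : ∑ l, τ.real (C l) = 1) (α β : ℝ)
    (hΦ : ∀ (N' : ℕ) (z : Fin N' → X), Function.Injective z → (∀ i, ∃ l, z i ∈ C l) →
      α + β * N' ≤ ∑ p ∈ (Finset.univ : Finset (Fin N')).offDiag, k (z p.1) (z p.2)) :
    α + β * N₁ ≤ ∑ l, ∑ p ∈ (Finset.univ : Finset (Fin n)).offDiag,
        ∫ ω in A l p.1 ∩ A l p.2, k (y l p.1 ω) (y l p.2 ω) ∂P +
      (N₁ : ℝ) ^ 2 * (∫ q, k q.1 q.2 ∂(τ.prod τ) -
        ∑ l, ∫ x in C l, ∫ z in C l, k x z ∂τ ∂τ) := by
  classical
  obtain ⟨B0, hB0⟩ := hbd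
  set Pr : Measure (ι → Ω) := Measure.pi fun _ : ι => P with hPi
  -- the set where both points are present
  set B : ι × Fin n → ι × Fin n → Set (ι → Ω) := fun p q =>
    {ω | ω p.1 ∈ A p.1 p.2 ∧ ω q.1 ∈ A q.1 q.2} with hB
  have hBm : ∀ p q, MeasurableSet (B p q) := fun p q =>
    ((measurable_pi_apply p.1) (hA p.1 p.2)).inter ((measurable_pi_apply q.1) (hA q.1 q.2))
  -- the pair function
  set G : ι × Fin n → ι × Fin n → (ι → Ω) → ℝ := fun p q =>
    (B p q).indicator fun ω => k (y p.1 p.2 (ω p.1)) (y q.1 q.2 (ω q.1)) with hG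
  have hGm : ∀ p q, Measurable (G p q) := by
    intro p q
    refine Measurable.indicator ?_ (hBm p q)
    exact hk.comp (((hy p.1 p.2).comp (measurable_pi_apply p.1)).prodMk
        ((hy q.1 q.2).comp (measurable_pi_apply q.1)))
  have hG0 : ∀ p q ω, 0 ≤ G p q ω := fun p q ω =>
    Set.indicator_nonneg (fun ω _ => hk0 _ _) ω
  set F : (ι → Ω) → ℝ := fun ω => ∑ q ∈ (Finset.univ : Finset (ι × Fin n)).offDiag, G q.1 q.2 ω
    with hF
  have hFm : Measurable F := Finset.measurable_fun_sum _ fun q _ => hGm q.1 q.2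
  have hF0 : ∀ ω, 0 ≤ F ω := fun ω => Finset.sum_nonneg fun q _ => hG0 _ _ _
  -- the number of points
  set T : (ι → Ω) → Finset (ι × Fin n) := fun ω =>
    Finset.univ.filter fun p => ω p.1 ∈ A p.1 p.2 with hT
  set cnt : (ι → Ω) → ℝ := fun ω => ((T ω).card : ℝ) with hcnt
  have hcnt' : ∀ ω, cnt ω = ∑ p : ι × Fin n, ({ω : ι → Ω | ω p.1 ∈ A p.1 p.2}).indicator 1 ω := by
    intro ω
    rw [hcnt]
    simp only [hT, Finset.card_filter, Set.indicator_apply, Set.mem_ofPred_eq, Pi.one_apply]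
    push_cast
    rfl
  -- the pointwise inequality
  have hpt : ∀ ω, α + β * cnt ω ≤ F ω := by
    intro ω
    refine (offDiag_enum k (fun p : ι × Fin n => y p.1 p.2 (ω p.1)) (T ω)
      (fun x => ∃ l, x ∈ C l) α β ?_ ?_ hΦ).trans (le_of_eq ?_)
    · rintro ⟨l, i⟩ ha ⟨l', j⟩ hb hab
      simp only [hT, Finset.mem_filter, Finset.mem_univ, true_and] at ha hb
      simp only at hab
      have h4 : l = l' := by
        by_contra hne
        have h5 := hdisj l l' hne
        exact Set.disjoint_left.1 h5 (hmem l i _ ha) (hab ▸ (hmem l' j _ hb))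
      subst h4
      have h6 : i = j := by
        by_contra hne
        exact hinj l i j hne (ω l) ⟨ha, hb⟩ hab
      rw [h6]
    · rintro ⟨l, i⟩ ha
      simp only [hT, Finset.mem_filter, Finset.mem_univ, true_and] at ha
      exact ⟨l, hmem l i _ ha⟩
    · rw [hF]
      have h7 : (T ω).offDiag =
          (Finset.univ : Finset (ι × Fin n)).offDiag.filter fun q => ω ∈ B q.1 q.2 := by
        ext q
        simp only [Finset.mem_offDiag, Finset.mem_filter, hT, hB, Finset.mem_univ, true_and,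
          Set.mem_ofPred_eq]
        tauto
      rw [h7, Finset.sum_filter]
      refine Finset.sum_congr rfl fun q _ => ?_
      rw [hG]
      simp only [Set.indicator_apply]
  -- the mean number of points
  have hone : ∀ p : ι × Fin n, Pr.real {ω : ι → Ω | ω p.1 ∈ A p.1 p.2} = P.real (A p.1 p.2) := by
    intro p
    have := (measurePreserving_eval (fun _ : ι => P) p.1).measure_preimage
      (hA p.1 p.2).nullMeasurableSet
    rw [Measure.real, Measure.real, ← this]
    rfl
  have hicnt : ∀ p : ι × Fin n,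
      Integrable (({ω : ι → Ω | ω p.1 ∈ A p.1 p.2}).indicator (1 : (ι → Ω) → ℝ)) Pr := fun p =>
    (integrable_const (1 : ℝ)).indicator ((measurable_pi_apply p.1) (hA p.1 p.2))
  have hcm : Integrable cnt Pr := by
    have : cnt = fun ω => ∑ p : ι × Fin n, ({ω : ι → Ω | ω p.1 ∈ A p.1 p.2}).indicator
      (1 : (ι → Ω) → ℝ) ω := funext hcnt'
    rw [this]
    exact integrable_finsetSum _ fun p _ => hicnt p
  have hcint : ∫ ω, cnt ω ∂Pr = N₁ := by
    simp only [hcnt']
    rw [integral_finsetSum _ fun p _ => hicnt p]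
    have h3 : ∀ p : ι × Fin n, ∫ ω, ({ω : ι → Ω | ω p.1 ∈ A p.1 p.2}).indicator
        (1 : (ι → Ω) → ℝ) ω ∂Pr = P.real (A p.1 p.2) := by
      intro p
      have hms : MeasurableSet {ω : ι → Ω | ω p.1 ∈ A p.1 p.2} :=
        (measurable_pi_apply p.1) (hA p.1 p.2)
      rw [integral_indicator_one hms, hone p]
    simp only [h3]
    rw [Fintype.sum_prod_type]
    have h4 : ∀ l, ∑ i, P.real (A l i) = N₁ * τ.real (C l) := by
      intro l
      have := hmean l Set.univ MeasurableSet.univ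
      simpa using this
    simp only [h4]
    rw [← Finset.mul_sum, hfull, mul_one]
  -- the pair terms
  set φ : ι × Fin n → ι × Fin n → ℝ≥0∞ := fun p q => ∫⁻ ω, ENNReal.ofReal (G p q ω) ∂Pr with hφ
  set I : ι → ι → ℝ≥0∞ := fun l l' =>
    (N₁ : ℝ≥0∞) ^ 2 * ∫⁻ x in C l, ∫⁻ z in C l', kk k x z ∂τ ∂τ with hI
  have hcross : ∀ l l', l ≠ l' → ∑ i, ∑ j, φ (l, i) (l', j) = I l l' := by
    intro l l' hne
    rw [hI]
    simp only
    rw [← cross τ hk P n (y l) (y l') (A l) (A l') (C l) (C l') N₁ (hy l) (hy l') (hA l) (hA l')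
      (sum_map τ P n (y l) (A l) (C l) N₁ (hy l) (hmean l))
      (sum_map τ P n (y l') (A l') (C l') N₁ (hy l') (hmean l'))]
    refine Finset.sum_congr rfl fun i _ => Finset.sum_congr rfl fun j _ => ?_
    rw [hφ]
    simp only
    have hm : Measurable ((A l i ×ˢ A l' j).indicator
        fun q : Ω × Ω => kk k (y l i q.1) (y l' j q.2)) := by
      refine Measurable.indicator ?_ ((hA l i).prod (hA l' j))
      exact (measurable_kk hk).comp (((hy l i).comp measurable_fst).prodMk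
        ((hy l' j).comp measurable_snd))
    rw [← lintegral_two P hne hm]
    refine lintegral_congr fun ω => ?_
    rw [hG]
    simp only [hB]
    by_cases hω : ω l ∈ A l i ∧ ω l' ∈ A l' j
    · rw [Set.indicator_of_mem (show ω ∈ {ω : ι → Ω | ω l ∈ A l i ∧ ω l' ∈ A l' j} from hω),
        Set.indicator_of_mem (show (ω l, ω l') ∈ A l i ×ˢ A l' j from hω)]
      rfl
    · rw [Set.indicator_of_notMem
        (show ω ∉ {ω : ι → Ω | ω l ∈ A l i ∧ ω l' ∈ A l' j} from hω),
        Set.indicator_of_notMem (show (ω l, ω l') ∉ A l i ×ˢ A l' j from hω), ENNReal.ofReal_zero]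
  have hwithin : ∀ l i j, i ≠ j → φ (l, i) (l, j) =
      ENNReal.ofReal (∫ ω in A l i ∩ A l j, k (y l i ω) (y l j ω) ∂P) := by
    intro l i j hij
    have hmr : Measurable fun a : Ω => k (y l i a) (y l j a) :=
      hk.comp ((hy l i).prodMk (hy l j))
    have hm : Measurable ((A l i ∩ A l j).indicator
        fun a : Ω => ENNReal.ofReal (k (y l i a) (y l j a))) := by
      refine Measurable.indicator ?_ ((hA l i).inter (hA l j))
      exact ENNReal.measurable_ofReal.comp hmr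
    have h3 : φ (l, i) (l, j) = ∫⁻ a, (A l i ∩ A l j).indicator
        (fun a : Ω => ENNReal.ofReal (k (y l i a) (y l j a))) a ∂P := by
      rw [← lintegral_one P l hm, hφ]
      refine lintegral_congr fun ω => ?_
      rw [hG]
      simp only [hB]
      by_cases hω : ω l ∈ A l i ∧ ω l ∈ A l j
      · rw [Set.indicator_of_mem (show ω ∈ {ω : ι → Ω | ω l ∈ A l i ∧ ω l ∈ A l j} from hω),
          Set.indicator_of_mem (show ω l ∈ A l i ∩ A l j from hω)]
      · rw [Set.indicator_of_notMem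
          (show ω ∉ {ω : ι → Ω | ω l ∈ A l i ∧ ω l ∈ A l j} from hω),
          Set.indicator_of_notMem (show ω l ∉ A l i ∩ A l j from hω), ENNReal.ofReal_zero]
    rw [h3, lintegral_indicator ((hA l i).inter (hA l j)), ofReal_integral_eq_lintegral_ofReal]
    · refine Measure.integrableOn_of_bounded (M := B0) (measure_ne_top _ _) ?_ ?_
      · exact hmr.aestronglyMeasurable
      · refine (ae_restrict_iff' ((hA l i).inter (hA l j))).2 (Eventually.of_forall ?_)
        intro ω hω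
        rw [Real.norm_of_nonneg (hk0 _ _)]
        exact hB0 l i j hij ω hω
    · exact Eventually.of_forall fun ω => hk0 _ _
  have hFl : ∫⁻ ω, ENNReal.ofReal (F ω) ∂Pr =
      ∑ q ∈ (Finset.univ : Finset (ι × Fin n)).offDiag, φ q.1 q.2 := by
    have h3 : ∀ ω, ENNReal.ofReal (F ω) = ∑ q ∈ (Finset.univ : Finset (ι × Fin n)).offDiag,
        ENNReal.ofReal (G q.1 q.2 ω) := fun ω =>
      ENNReal.ofReal_sum_of_nonneg fun q _ => hG0 _ _ _
    simp only [h3]
    rw [lintegral_finsetSum]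
    intro q _
    exact ENNReal.measurable_ofReal.comp (hGm q.1 q.2)
  have htot := sum_cells n φ I hcross
  rw [← hFl] at htot
  set Ik : ℝ := ∫ q, k q.1 q.2 ∂(τ.prod τ) with hIk
  have hIk0 : 0 ≤ Ik := integral_nonneg fun q => hk0 _ _
  -- the total over all pairs of cells
  have hall : ∑ l, ∑ l', I l l' = (N₁ : ℝ≥0∞) ^ 2 * ENNReal.ofReal Ik := by
    rw [hIk, ← lintegral_lintegral_kk τ hk hk0 hki, hI]
    simp only [← Finset.mul_sum]
    congr 1
    have hs := sum_restrict τ C hC hdisj hfull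
    have h3 : ∀ l, ∑ l', ∫⁻ x in C l, ∫⁻ z in C l', kk k x z ∂τ ∂τ =
        ∫⁻ x in C l, ∫⁻ z, kk k x z ∂τ ∂τ := by
      intro l
      rw [← lintegral_finsetSum _ (fun l' _ => measurable_lintegral_kk hk _)]
      refine lintegral_congr fun x => ?_
      rw [← lintegral_finsetSum_measure, hs]
    simp only [h3]
    rw [← lintegral_finsetSum_measure, hs]
  have hw : ∀ l, ∑ q ∈ (Finset.univ : Finset (Fin n)).offDiag, φ (l, q.1) (l, q.2) =
      ENNReal.ofReal (∑ q ∈ (Finset.univ : Finset (Fin n)).offDiag,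
        ∫ ω in A l q.1 ∩ A l q.2, k (y l q.1 ω) (y l q.2 ω) ∂P) := by
    intro l
    rw [ENNReal.ofReal_sum_of_nonneg]
    · refine Finset.sum_congr rfl fun q hq => ?_
      exact hwithin l q.1 q.2 (Finset.mem_offDiag.1 hq).2.2
    · intro q _
      exact integral_nonneg fun ω => hk0 _ _
  simp only [hw] at htot
  rw [hall, ← ENNReal.ofReal_sum_of_nonneg] at htot
  swap
  · intro l _
    exact Finset.sum_nonneg fun q _ => integral_nonneg fun ω => hk0 _ _
  set W : ℝ := ∑ l, ∑ q ∈ (Finset.univ : Finset (Fin n)).offDiag,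
        ∫ ω in A l q.1 ∩ A l q.2, k (y l q.1 ω) (y l q.2 ω) ∂P with hW
  have hW0 : 0 ≤ W := Finset.sum_nonneg fun l _ =>
    Finset.sum_nonneg fun q _ => integral_nonneg fun ω => hk0 _ _
  have hfin : ENNReal.ofReal W + (N₁ : ℝ≥0∞) ^ 2 * ENNReal.ofReal Ik ≠ ∞ := by
    refine ENNReal.add_ne_top.2 ⟨ENNReal.ofReal_ne_top, ENNReal.mul_ne_top ?_ ENNReal.ofReal_ne_top⟩
    exact ENNReal.pow_ne_top (ENNReal.natCast_ne_top _)
  have hEfin : ∫⁻ ω, ENNReal.ofReal (F ω) ∂Pr ≠ ∞ := by
    refine ne_top_of_le_ne_top hfin ?_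
    rw [← htot]
    exact le_self_add
  have hIfin : ∑ l, I l l ≠ ∞ := by
    refine ne_top_of_le_ne_top hfin ?_
    rw [← htot]
    exact le_add_self
  have hFint : Integrable F Pr := by
    refine ⟨hFm.aestronglyMeasurable, ?_⟩
    rw [hasFiniteIntegral_iff_ofReal (Eventually.of_forall hF0)]
    exact lt_top_iff_ne_top.2 hEfin
  have hFval : ∫ ω, F ω ∂Pr = (∫⁻ ω, ENNReal.ofReal (F ω) ∂Pr).toReal :=
    integral_eq_lintegral_of_nonneg_ae (Eventually.of_forall hF0) hFm.aestronglyMeasurable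
  have hIval : (∑ l, I l l).toReal =
      (N₁ : ℝ) ^ 2 * ∑ l, ∫ x in C l, ∫ z in C l, k x z ∂τ ∂τ := by
    rw [ENNReal.toReal_sum, Finset.mul_sum]
    · refine Finset.sum_congr rfl fun l _ => ?_
      rw [hI]
      simp only
      rw [ENNReal.toReal_mul, integral_cell τ hk hk0 hki (C l), ENNReal.toReal_pow,
        ENNReal.toReal_natCast]
    · intro l hl
      exact ENNReal.sum_ne_top.1 hIfin l hl
  have hreal := congrArg ENNReal.toReal htot
  rw [ENNReal.toReal_add hEfin hIfin, ENNReal.toReal_add ENNReal.ofReal_ne_top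
    (ENNReal.mul_ne_top (ENNReal.pow_ne_top (ENNReal.natCast_ne_top _)) ENNReal.ofReal_ne_top),
    ENNReal.toReal_ofReal hW0, ENNReal.toReal_mul, ENNReal.toReal_ofReal hIk0,
    ENNReal.toReal_pow, ENNReal.toReal_natCast, ← hFval, hIval] at hreal
  have hfinal : ∫ ω, (α + β * cnt ω) ∂Pr ≤ ∫ ω, F ω ∂Pr :=
    integral_mono ((integrable_const _).add (hcm.const_mul _)) hFint hpt
  have e1 : ∫ ω, (α + β * cnt ω) ∂Pr = α + β * N₁ := by
    rw [integral_add (integrable_const _) (hcm.const_mul _), integral_const_mul, hcint,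
      integral_const, probReal_univ, one_smul]
  rw [e1] at hfinal
  linarith [hfinal, hreal]

end Pool.Agent.Helper67.RZ2
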